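import Pool.Agent.E8helper78.FL.Main

/-!
# The complexes of cluster parking functions are flag

Full positive answer: for every finite real reflection group and every `m ≥ 1` both complexes `CPF^(m)` and
`CPF^(m),+` are flag.
-/

set_option autoImplicit false

namespace Pool.Agent.Results.MP_b68fb8_co.FlagComplexesH78

open Pool.Agent.E8helper78.FL

/-- For every finite real reflection group, given by its root system `Φ` of unit vectors with simple roots
`A` (`Π_•`) and `B` (`Π_∘`), and every `m ≥ 1`: there is a compatibility relation in the sense of Fomin and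
Reading, and for every such relation `R`: every face `f` has a listing whose product is a reduced
factorization of a noncrossing partition, and, `L` being any choice of such listings, the complexes
`CPF^(m)` and `CPF^(m),+` are flag. -/
theorem result (V : Type) [NormedAddCommGroup V] [InnerProductSpace ℝ V]
    (Φ : Set V) (A B : List V) (h : Bip Φ A B) (m : ℕ) (hm : 1 ≤ m) :
    (∃ R : V × ℕ → V × ℕ → Prop, IsCompat Φ A B m R) ∧
    ∀ R : V × ℕ → V × ℕ → Prop, IsCompat Φ A B m R →
      (∀ f ∈ Face Φ A B m R, ∃ l, Listing Φ A B f l) ∧
      ∀ L : Finset (V × ℕ) → List (V × ℕ), (∀ f ∈ Face Φ A B m R, Listing Φ A B f (L f)) →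
        IsFlag (CPF Φ A B (Face Φ A B m R) L) ∧ IsFlag (CPF Φ A B (FaceP Φ A B m R) L) :=
  ⟨f_CMP V Φ A B h m hm, fun R hR => ⟨f_LIST V Φ A B h m hm R hR, f_CPF V Φ A B h m R⟩⟩

end Pool.Agent.Results.MP_b68fb8_co.FlagComplexesH78
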